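import Pool.Agent.MWLQ.StmtsB

/-!
# Row CVA of squad MWLQ (MP_23468a_al): covering by the first copy

Twin of `Pool/Agent/Helper81_MWLE/CVA.lean` (helper81).
-/

set_option autoImplicit false

namespace Pool.Agent.MWLQ.H34

open Pool.Agent.Helper14_MV
open Pool.Agent.Helper2_MV (RR)
open Pool.Agent.MWK (pre)
open Pool.Agent.MWF (gaml)
open Pool.Agent.MWGN (nn Tau gh)
open Pool.Agent.MWGQ (pw Z Gn E0 A0 P0)
open Pool.Agent.MWLE (pin sep con tl tll Sg t1 Fc Fb Fy Fx Fu Fz rz sf k0)
open Pool.Agent.MWLQ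

private theorem mem_pw' {k d : ℕ} {u : List ℕ} (h : d ∈ pw k u) : d ∈ u := by
  unfold pw at h
  rw [List.mem_flatten] at h
  obtain ⟨l, hl, hd⟩ := h
  rw [(List.mem_replicate.1 hl).2] at hd
  exact hd

/-- the part in question is a left part of the word -/
theorem split (n m : ℕ) (g : Bool) : ∃ R : List ℕ,
    wb n m false g = (N0 n m ++ 0 :: (List.replicate (n + 1) (con (m + 1)) ++
      (if g then [] else [pin (m + 1)]))) ++ R ∧
    ∀ σ, wd n σ m false g = (N0 n m ++ 0 :: (List.replicate (n + 1) (con (m + 1)) ++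
      (if g then [] else [pin (m + 1)]))) ++ (R ++ tl σ) := by
  cases g
  · refine ⟨1 :: (cp n (m + 2) m ++ [pin (2 * m + 2)]) ++ [0], ?_, fun σ => ?_⟩
    · simp [wb, Nx]
    · simp [wd, wb, Nx]
  · refine ⟨List.replicate n 1 ++ (pin (m + 1) :: 1 :: (cp n (m + 2) m ++ [pin (2 * m + 2)])) ++
      [0], ?_, fun σ => ?_⟩
    · simp [wb, Nx]
    · simp [wd, wb, Nx]

theorem con_wb {n m k : ℕ} (g : Bool) (hk : k ≤ m + 1) : con k ∈ wb n m false g := by
  have h0 : con 0 ∈ N0 n m := by simp [N0, List.replicate_succ]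
  have h1 : ∀ i < m, con (1 + i) ∈ N0 n m := by
    intro i hi
    have : con (1 + i) ∈ cp n 1 m := by
      simp only [cp, List.mem_flatMap, List.mem_range]
      exact ⟨i, hi, by simp [List.replicate_succ]⟩
    simp [N0, this]
  rcases Nat.lt_or_ge k (m + 1) with h2 | h2
  · have h3 : con k ∈ N0 n m := by
      rcases Nat.eq_zero_or_pos k with h4 | h4
      · rw [h4]; exact h0
      · have := h1 (k - 1) (by omega)
        rwa [show 1 + (k - 1) = k by omega] at this
    unfold wb
    exact List.mem_append_left _ h3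
  · have e : k = m + 1 := by omega
    subst e
    have h3 : con (m + 1) ∈ Nx n m g := by
      unfold Nx
      exact List.mem_append_left _ (by simp)
    unfold wb
    exact List.mem_append_right _ (List.mem_append_right _ (List.mem_append_left _ h3))

theorem cva (_hTWC : TwcStmt) (_hBLK : BlkStmt) (hTCR : TcrStmt) (hGFA : GfaStmt) : CvaStmt := by
  intro n hn σ τ m hS g f p q W hW hF h1 hc hp hm
  obtain ⟨h, hh⟩ : ∃ h : ℕ → List ℕ, h = (fun i => (if 1 ≤ i ∧ i ≤ m then pw (n + 1) (f (con i))
      else []) ++ (if i = m then f 0 ++ pw (n + 1) (f (con (m + 1))) else [])) := ⟨_, rfl⟩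
  obtain ⟨G1, G2⟩ := hGFA n m f h hh
  have c0 : (0 : ℕ) ∈ wb n m false g := by
    cases g <;> simp [wb]
  have c1 : (1 : ℕ) ∈ wb n m false g := by
    cases g <;> simp [wb, N0]
  have n0 : ∀ j, (0 : ℕ) ≠ pin j := fun j => by unfold pin; omega
  have n1 : ∀ j, (1 : ℕ) ≠ pin j := fun j => by unfold pin; omega
  have nc : ∀ k j, con k ≠ pin j := fun k j => by unfold pin con; omega
  obtain ⟨N, hN, hNe⟩ : ∃ N, N = (if g then m + 1 else m + 2) ∧
      (N0 n m ++ 0 :: (List.replicate (n + 1) (con (m + 1)) ++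
        (if g then [] else [pin (m + 1)]))).flatMap f =
      f 1 ++ (pw (n + 1) (f (con 0)) ++ gh (fun i => f (pin i)) h N) := by
    cases g
    · exact ⟨m + 2, rfl, G2⟩
    · refine ⟨m + 1, rfl, ?_⟩
      rw [if_pos rfl, List.append_nil]
      exact G1
  obtain ⟨R, hR, hRs⟩ := split n m g
  have hfirst : ∀ i < m + 2, pin (m + 1 + i) ∉ f 1 ++ pw (n + 1) (f (con 0)) := by
    intro i hi hmem
    have h2 := hc 1 c1 n1 (m + 1 + i) (by omega)
    have h3 := hc (con 0) (con_wb g (by omega)) (nc 0) (m + 1 + i) (by omega)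
    rcases List.mem_append.1 hmem with h4 | h4
    · exact h2 h4
    · exact h3 (mem_pw' h4)
  have hG : ∀ i < m + 2, pin (m + 1 + i) ∈ gh (fun i => f (pin i)) h N := by
    intro i hi
    have h2 := hm (m + 1 + i) (by omega) (by omega)
    rw [hNe] at h2
    have h3 := hfirst i hi
    rw [← List.append_assoc] at h2
    rcases List.mem_append.1 h2 with h4 | h4
    · exact absurd h4 h3
    · exact h4
  have hcnt : ∀ i < m + 2, (gh (fun i => f (pin i)) h N).count (pin (m + 1 + i)) = 1 := by
    intro i hi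
    have h2 := h1 (m + 1 + i) (by omega)
    rw [hR, List.flatMap_append, hNe] at h2
    simp only [List.count_append] at h2
    have h3 : 0 < (gh (fun i => f (pin i)) h N).count (pin (m + 1 + i)) :=
      List.count_pos_iff.2 (hG i hi)
    omega
  have hhl : ∀ i j, j < m + 2 → pin (m + 1 + j) ∉ h i := by
    intro i j hj hmem
    rw [hh] at hmem
    rcases List.mem_append.1 hmem with h2 | h2
    · by_cases h3 : 1 ≤ i ∧ i ≤ m
      · rw [if_pos h3] at h2
        have h4 := hc (con i) (con_wb g (by omega)) (nc i) (m + 1 + j) (by omega)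
        exact h4 (mem_pw' h2)
      · rw [if_neg h3] at h2
        simp at h2
    · by_cases h3 : i = m
      · rw [if_pos h3] at h2
        have h4 := hc (con (m + 1)) (con_wb g (by omega)) (nc _) (m + 1 + j) (by omega)
        have h5 := hc 0 c0 n0 (m + 1 + j) (by omega)
        rcases List.mem_append.1 h2 with h2 | h2
        · exact h5 h2
        · exact h4 (mem_pw' h2)
      · rw [if_neg h3] at h2
        simp at h2
  have hgl : ∀ i < N, ∀ j j', j < j' → j' < m + 2 →
      ¬ (pin (m + 1 + j) ∈ f (pin i) ∧ pin (m + 1 + j') ∈ f (pin i)) := by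
    rintro i hi j j' hjj hj' ⟨h2, h3⟩
    have hi2 : i ≤ 2 * m + 2 := by
      rw [hN] at hi
      split_ifs at hi <;> omega
    have m1 : m + 1 + j ∈ σ := (hS.me _).2 (by omega)
    rcases MWK.pre_total (w := σ) (y := m + 1 + j') m1 (by omega) with h4 | h4
    · exact hTCR n hn σ τ m hS false g f p q W hW hF i i (m + 1 + j) (m + 1 + j') hi2 hi2 (by omega)
        (by omega) (Or.inl rfl) h4 h3 h2
    · exact hTCR n hn σ τ m hS false g f p q W hW hF i i (m + 1 + j') (m + 1 + j) hi2 hi2 (by omega)
        (by omega) (Or.inl rfl) h4 h2 h3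
  cases g
  · -- `cov`
    have hN2 : N = m + 2 := hN
    subst hN2
    have hord : ∀ i j, i < j → j < m + 2 →
        pin (m + 1 + i) ∈ pre (gh (fun i => f (pin i)) h (m + 2)) (pin (m + 1 + j)) := by
      intro i j hij hj
      have h2 := hF.po (m + 1 + i) (m + 1 + j) (by omega) (by omega)
      have hWe : W = (p ++ (f 1 ++ pw (n + 1) (f (con 0)))) ++
          (gh (fun i => f (pin i)) h (m + 2) ++ ((R ++ tl σ).flatMap f ++ q)) := by
        rw [hW, hRs σ, List.flatMap_append, hNe]
        simp
      have h3 : pin (m + 1 + j) ∉ p ++ (f 1 ++ pw (n + 1) (f (con 0))) := by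
        intro h4
        rcases List.mem_append.1 h4 with h4 | h4
        · exact hp _ (by omega) (by omega) h4
        · exact hfirst j hj h4
      have h3' : pin (m + 1 + i) ∉ p ++ (f 1 ++ pw (n + 1) (f (con 0))) := by
        intro h4
        rcases List.mem_append.1 h4 with h4 | h4
        · exact hp _ (by omega) (by omega) h4
        · exact hfirst i (by omega) h4
      rw [hWe, MWK.pre_append h3, MWK.pre_append_mem (hG j hj)] at h2
      rcases List.mem_append.1 h2 with h4 | h4
      · exact absurd h4 h3'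
      · exact h4
    have hcov := MWGN.cov (g := fun i => f (pin i)) (h := h) (L := fun i => pin (m + 1 + i))
      (N := m + 2) hcnt hord (fun i _ j hj => hhl i j hj) hgl
    refine ⟨rfl, ?_, ?_⟩
    · exact hcov 0 (by omega)
    · exact hcov 1 (by omega)
  · -- `pig`
    exfalso
    have hN2 : N = m + 1 := hN
    subst hN2
    have := MWGN.pig (g := fun i => f (pin i)) (h := h) (L := fun i => pin (m + 1 + i))
      (N := m + 1) (K := m + 2) hG (fun i _ j hj => hhl i j hj) hgl
    omega

end Pool.Agent.MWLQ.H34
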